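import Pool.Agent.H.MP_d7d3dc_an.helper67.Expl

/-!
Subspaces of `L_1` and their duals: the exact order `√m`, without a logarithm.
-/

open Pool.Agent.H.MP_d7d3dc_an

theorem Pool.Agent.Results.MP_d7d3dc_an.LOneSqrt.result :
    ∀ m : ℕ, 1 ≤ m →
      ENNReal.ofReal (2 / 3 * Real.sqrt m) ≤ D7L.maxDistL1 m ∧
      D7L.maxDistL1 m ≤ ENNReal.ofReal (6 * Real.sqrt m) ∧
      (∀ X : NSpace m, D7L.EmbedsL1 X.carrier →
        bmDist X.carrier (Fin m → ℝ) ≤ ENNReal.ofReal (6 * Real.sqrt m)) ∧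
      (∀ X : NSpace m, D7L.EmbedsL1 (StrongDual ℝ X.carrier) →
        bmDist X.carrier (PiLp 1 fun _ : Fin m => ℝ) ≤ ENNReal.ofReal (6 * Real.sqrt m)) :=
  fun _ hm => ⟨(D7L.maxDistL1_bounds hm).1, (D7L.maxDistL1_bounds hm).2,
    fun X hX => D7L.bmDist_cube hm X hX, fun X hX => D7L.bmDist_cross hm X hX⟩
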