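import Pool.Agent.H.MP_d7d3dc_an.h98.Main
import Pool.Agent.H.MP_d7d3dc_an.h17.Final

/-!
The order of growth of `D_m` up to a power of the logarithm:
`(2/3) √m ≤ inf_Y d(l_2^m, Y) ≤ D_m ≤ C √m (1 + log m)^7`.
-/

open Pool.Agent.H.MP_d7d3dc_an

theorem Pool.Agent.Results.MP_d7d3dc_an.SqrtOrder.result :
    ∃ C : ℝ, 0 < C ∧ ∀ m : ℕ, 1 ≤ m →
      ENNReal.ofReal (2 / 3 * Real.sqrt m) ≤
        (⨅ Y : NSpace m, ⨅ _ : numIndex Y.carrier = 1,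
          bmDist (EuclideanSpace ℝ (Fin m)) Y.carrier) ∧
      (⨅ Y : NSpace m, ⨅ _ : numIndex Y.carrier = 1,
          bmDist (EuclideanSpace ℝ (Fin m)) Y.carrier) ≤ maxDist m ∧
      maxDist m ≤ ENNReal.ofReal (C * Real.sqrt m * (1 + Real.log m) ^ 7) := by
  obtain ⟨C, hC, h⟩ := D7u.maxDist_upper
  exact ⟨C, hC, fun m hm => ⟨H98.inf_sqrt hm, H98.inf_le_maxDist, h m hm⟩⟩
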