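import Pool.Agent.H.MP_d7d3dc_an.h96.Fin

/-!
Spaces of type 2 and their duals: the exact order `√m`, without a logarithm.
-/

open Pool.Agent.H.MP_d7d3dc_an

theorem Pool.Agent.Results.MP_d7d3dc_an.TypeTwoSqrt.result :
    ∀ (m : ℕ) (T : ℝ), 1 ≤ m → 1 ≤ T →
      ENNReal.ofReal (2 / 3 * Real.sqrt m) ≤ D7T.maxDistT2 m T ∧
      D7T.maxDistT2 m T ≤ ENNReal.ofReal (18 * T * Real.sqrt m) ∧
      (∀ X : NSpace m, D7T.Type2 X.carrier T →
        bmDist X.carrier (PiLp 1 fun _ : Fin m => ℝ) ≤ ENNReal.ofReal (18 * T * Real.sqrt m)) ∧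
      (∀ X : NSpace m, D7T.Type2 (StrongDual ℝ X.carrier) T →
        bmDist X.carrier (Fin m → ℝ) ≤ ENNReal.ofReal (18 * T * Real.sqrt m)) :=
  fun _ _ hm hT => ⟨(D7T.maxDistT2_bounds hm hT).1, (D7T.maxDistT2_bounds hm hT).2,
    fun X hX => D7T.dist_cross hm X.finrank_eq (zero_le_one.trans hT) hX,
    fun X hX => D7T.dist_cube hm X.finrank_eq (zero_le_one.trans hT) hX⟩
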