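import Pool.Agent.H.MP_d7d3dc_an.h70.Unc2

/-!
The exact order of growth on the class of spaces with an unconditional basis:
`(2/3) √m ≤ D_m(u) ≤ u (2 √m - 1)`.
-/

open Pool.Agent.H.MP_d7d3dc_an

theorem Pool.Agent.Results.MP_d7d3dc_an.UncSqrt.result :
    ∀ m : ℕ, 1 ≤ m → ∀ u : ℝ, 1 ≤ u →
      ENNReal.ofReal (2 / 3 * Real.sqrt m) ≤ H70.maxDistUnc m u ∧
      H70.maxDistUnc m u ≤ ENNReal.ofReal (u * (2 * Real.sqrt m - 1)) :=
  fun _ hm u hu => ⟨H70.le_maxDistUnc hm u hu, H70.maxDistUnc_le hm u⟩
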